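import Pool.Agent.Work.MP_0f91f8_co.Dfx.Dyn
import Pool.Agent.Work.MP_0f91f8_co.Cge.I_BRAUER
import Pool.Agent.Work.MP_0f91f8_co.Cge.I_CFG

/-!
Return times are syndetic; Brauer configurations; existence of Brauer laws.
-/

set_option linter.unusedSectionVars false

open Filter Topology

namespace Pool.Agent.Work.MP_0f91f8_co.Dfx

universe u

variable {E : Type u} [Group E] [TopologicalSpace E] [CompactSpace E] [T2Space E] {θ : ℚ → E}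

lemma Ell.left (h : Ell θ) (g : ℚ) : Continuous (fun y : E => θ g * y) := by
  have : (fun y : E => θ g * y) = fun y : E => y * θ g := funext fun y => h.central g y
  rw [this]
  exact h.right _

lemma Ell.one (h : Ell θ) : θ 1 = 1 := by
  have h1 := h.mul 1 1 one_ne_zero one_ne_zero
  rw [mul_one] at h1
  exact left_eq_mul.1 h1

/-- return times are syndetic -/
lemma Ell.synd (h : Ell θ) {U : Set E} (hU : U ∈ 𝓝 (1 : E)) :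
    ∃ M : Finset ℚ, (∀ m ∈ M, m ≠ 0) ∧ ∀ e : E, ∃ m ∈ M, θ m * e ∈ U := by
  classical
  obtain ⟨V, hVU, hVo, hV1⟩ := mem_nhds_iff.1 hU
  have hcov : ∀ e : E, ∃ m : ℚ, m ≠ 0 ∧ θ m * e ∈ V := by
    intro e
    obtain ⟨𝔬, h0, h1⟩ := h.dense e⁻¹
    have h2 : Tendsto (fun m : ℚ => θ m * e) (𝔬 : Filter ℚ) (𝓝 1) := by
      have := ((h.right e).tendsto e⁻¹).comp h1
      simp only [inv_mul_cancel] at this
      exact this
    obtain ⟨m, hm⟩ := (h0.and (h2.eventually (hVo.mem_nhds hV1))).exists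
    exact ⟨m, hm.1, hm.2⟩
  choose f hf0 hf using hcov
  obtain ⟨t, ht⟩ := isCompact_univ.elim_finite_subcover (fun e : E => {y : E | θ (f e) * y ∈ V})
    (fun e => hVo.preimage (h.left (f e))) (fun e _ => Set.mem_iUnion.2 ⟨e, hf e⟩)
  refine ⟨t.image f, ?_, ?_⟩
  · intro m hm
    obtain ⟨e, -, rfl⟩ := Finset.mem_image.1 hm
    exact hf0 e
  · intro e
    obtain ⟨e', he', he⟩ := Set.mem_iUnion₂.1 (ht (Set.mem_univ e))
    exact ⟨f e', Finset.mem_image_of_mem f he', hVU he⟩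

/-- Brauer configurations in the set of return times -/
lemma Ell.cfg (h : Ell θ) {κ : ℚ} (hκ : κ ≠ 0) (X : Finset ℚ) {U : Set E}
    (hU : U ∈ 𝓝 (1 : E)) : ∃ W q : ℚ, W ≠ 0 ∧ q ≠ 0 ∧ (∀ x ∈ X, 1 + x * W ≠ 0) ∧ θ q ∈ U ∧
      θ (q * (2 * W / κ)) ∈ U ∧ ∀ x ∈ X, θ (q * (1 + x * W)) ∈ U := by
  classical
  obtain ⟨M, hM0, hM⟩ := h.synd hU
  have hMne : Nonempty {m // m ∈ M} := by
    obtain ⟨m, hm, -⟩ := hM 1
    exact ⟨⟨m, hm⟩⟩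
  have hcol : ∀ n : ℕ, ∃ m : {m // m ∈ M}, 0 < n → θ ((m : ℚ) * n) ∈ U := by
    intro n
    by_cases hn : 0 < n
    · obtain ⟨m, hm, h1⟩ := hM (θ (n : ℚ))
      refine ⟨⟨m, hm⟩, fun _ => ?_⟩
      rw [h.mul m n (hM0 m hm) (by exact_mod_cast hn.ne')]
      exact h1
    · exact ⟨Classical.choice hMne, fun h => absurd h hn⟩
  choose χ hχ using hcol
  obtain ⟨c, hc, hcd⟩ := Cge.I_CFG.exists_denom (X.image fun x => x * κ / 2)
  have hz : ∀ x : ℚ, ∃ z : ℤ, x ∈ X → (z : ℚ) = x * κ / 2 * c := by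
    intro x
    by_cases hx : x ∈ X
    · obtain ⟨z, hz⟩ := hcd (x * κ / 2) (Finset.mem_image_of_mem _ hx)
      exact ⟨z, fun _ => hz⟩
    · exact ⟨0, fun h => absurd h hx⟩
  choose z hz using hz
  obtain ⟨s₀, d₀, hd, hJ, hmono⟩ := Cge.BRAUER_pf {m // m ∈ M} (∑ x ∈ X, (z x).natAbs) c hc χ
  set J := ∑ x ∈ X, (z x).natAbs with hJdef
  have hs₀ : 0 < s₀ := lt_of_le_of_lt (Nat.zero_le _) hJ
  set m : ℚ := (χ (c * d₀) : ℚ) with hm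
  have hm0 : m ≠ 0 := hM0 _ (χ (c * d₀)).2
  have hterm : ∀ j : ℤ, j.natAbs ≤ J →
      (m * ((s₀ : ℚ) + j * d₀) ≠ 0 ∧ θ (m * ((s₀ : ℚ) + j * d₀)) ∈ U) := by
    intro j hj
    have hjd : j.natAbs * d₀ < s₀ := lt_of_le_of_lt (Nat.mul_le_mul_right _ hj) hJ
    obtain ⟨hp, hn⟩ := hmono j.natAbs hj
    rcases le_total 0 j with h0 | h0
    · have e : ((s₀ + j.natAbs * d₀ : ℕ) : ℚ) = (s₀ : ℚ) + j * d₀ := by
        have h3 : (|(j : ℚ)|) = (j : ℚ) := abs_of_nonneg (by exact_mod_cast h0)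
        push_cast
        rw [Nat.cast_natAbs, Int.cast_abs, h3]
      have h := hχ (s₀ + j.natAbs * d₀) (by omega)
      rw [hp, e] at h
      refine ⟨mul_ne_zero hm0 ?_, h⟩
      rw [← e]
      have : 0 < s₀ + j.natAbs * d₀ := by omega
      exact_mod_cast this.ne'
    · have e : ((s₀ - j.natAbs * d₀ : ℕ) : ℚ) = (s₀ : ℚ) + j * d₀ := by
        have h3 : (|(j : ℚ)|) = -(j : ℚ) := abs_of_nonpos (by exact_mod_cast h0)
        rw [Nat.cast_sub hjd.le, Nat.cast_mul, Nat.cast_natAbs, Int.cast_abs, h3]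
        ring
      have h := hχ (s₀ - j.natAbs * d₀) (by omega)
      rw [hn, e] at h
      refine ⟨mul_ne_zero hm0 ?_, h⟩
      rw [← e]
      have : 0 < s₀ - j.natAbs * d₀ := by omega
      exact_mod_cast this.ne'
  have hq := hterm 0 (by simp)
  simp only [Int.cast_zero, zero_mul, add_zero] at hq
  have hD := hχ (c * d₀) (Nat.mul_pos hc hd)
  rw [← hm] at hD
  set q : ℚ := m * s₀ with hqdef
  set D : ℚ := m * ((c * d₀ : ℕ) : ℚ) with hDdef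
  have hq0 : q ≠ 0 := hq.1
  have hD0 : D ≠ 0 := by
    refine mul_ne_zero hm0 ?_
    exact_mod_cast (Nat.mul_pos hc hd).ne'
  have hW : 2 * (κ * D / (2 * q)) / κ = D / q := by
    field_simp
  have key : ∀ x ∈ X, q * (1 + x * (κ * D / (2 * q))) = m * ((s₀ : ℚ) + z x * d₀) ∧
      (z x).natAbs ≤ J := by
    intro x hx
    have hxz := hz x hx
    have hle : (z x).natAbs ≤ J := by
      rw [hJdef]
      exact Finset.single_le_sum (f := fun x => (z x).natAbs) (fun _ _ => Nat.zero_le _) hx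
    refine ⟨?_, hle⟩
    rw [hxz, hDdef]
    have : q * (1 + x * (κ * (m * ((c * d₀ : ℕ) : ℚ)) / (2 * q))) =
        q + x * κ * (m * ((c * d₀ : ℕ) : ℚ)) / 2 := by
      field_simp
    rw [this, hqdef]
    push_cast
    ring
  refine ⟨κ * D / (2 * q), q, div_ne_zero (mul_ne_zero hκ hD0) (mul_ne_zero two_ne_zero hq0),
    hq0, ?_, hq.2, ?_, ?_⟩
  · intro x hx h0
    obtain ⟨e, hle⟩ := key x hx
    apply (hterm (z x) hle).1
    rw [← e, h0, mul_zero]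
  · rw [hW, mul_div_cancel₀ D hq0]
    exact hD
  · intro x hx
    obtain ⟨e, hle⟩ := key x hx
    rw [e]
    exact (hterm (z x) hle).2

/-- Brauer laws -/
theorem Ell.brauer (h : Ell θ) {κ : ℚ} (hκ : κ ≠ 0) : ∃ 𝔮 : Ultrafilter (ℚ × ℚ),
    (∀ᶠ p in (𝔮 : Filter (ℚ × ℚ)), p.1 ≠ 0 ∧ p.2 ≠ 0) ∧
    Tendsto (fun p : ℚ × ℚ => θ p.2) (𝔮 : Filter (ℚ × ℚ)) (𝓝 1) ∧
    (∀ x : ℚ, (∀ᶠ p in (𝔮 : Filter (ℚ × ℚ)), 1 + x * p.1 ≠ 0) ∧
      Tendsto (fun p : ℚ × ℚ => θ (p.2 * (1 + x * p.1))) (𝔮 : Filter (ℚ × ℚ)) (𝓝 1)) ∧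
    Tendsto (fun p : ℚ × ℚ => θ (p.2 * (2 * p.1 / κ))) (𝔮 : Filter (ℚ × ℚ)) (𝓝 1) := by
  classical
  let ι : Type u := Finset ℚ × {O : Set E // O ∈ 𝓝 (1 : E)}
  let S : ι → Set (ℚ × ℚ) := fun i => {p | p.1 ≠ 0 ∧ p.2 ≠ 0 ∧ (∀ x ∈ i.1, 1 + x * p.1 ≠ 0) ∧
    θ p.2 ∈ (i.2 : Set E) ∧ θ (p.2 * (2 * p.1 / κ)) ∈ (i.2 : Set E) ∧
    ∀ x ∈ i.1, θ (p.2 * (1 + x * p.1)) ∈ (i.2 : Set E)}
  have hne : Nonempty ι := ⟨(∅, ⟨Set.univ, univ_mem⟩)⟩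
  have hdir : Directed (· ≥ ·) (fun i => 𝓟 (S i)) := by
    rintro ⟨X₁, ⟨O₁, hO₁⟩⟩ ⟨X₂, ⟨O₂, hO₂⟩⟩
    refine ⟨(X₁ ∪ X₂, ⟨O₁ ∩ O₂, inter_mem hO₁ hO₂⟩), ?_, ?_⟩
    · apply principal_mono.2
      rintro ⟨W, q⟩ ⟨h1, h2, h3, h4, h5, h6⟩
      exact ⟨h1, h2, fun x hx => h3 x (Finset.mem_union_left _ hx), h4.1, h5.1,
        fun x hx => (h6 x (Finset.mem_union_left _ hx)).1⟩
    · apply principal_mono.2
      rintro ⟨W, q⟩ ⟨h1, h2, h3, h4, h5, h6⟩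
      exact ⟨h1, h2, fun x hx => h3 x (Finset.mem_union_right _ hx), h4.2, h5.2,
        fun x hx => (h6 x (Finset.mem_union_right _ hx)).2⟩
  have hbot : NeBot (⨅ i, 𝓟 (S i)) := by
    apply iInf_neBot_of_directed' hdir
    rintro ⟨X, ⟨O, hO⟩⟩
    rw [principal_neBot_iff]
    obtain ⟨W, q, hWq⟩ := h.cfg hκ X hO
    exact ⟨(W, q), hWq⟩
  obtain ⟨𝔮, h𝔮⟩ : ∃ 𝔮 : Ultrafilter (ℚ × ℚ), (𝔮 : Filter (ℚ × ℚ)) ≤ ⨅ i, 𝓟 (S i) :=
    ⟨Ultrafilter.of _, Ultrafilter.of_le _⟩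
  have hev : ∀ (X : Finset ℚ) (O : Set E) (hO : O ∈ 𝓝 (1 : E)),
      ∀ᶠ p : ℚ × ℚ in (𝔮 : Filter (ℚ × ℚ)), p ∈ S (X, ⟨O, hO⟩) := by
    intro X O hO
    have h1 : (𝔮 : Filter (ℚ × ℚ)) ≤ 𝓟 (S (X, ⟨O, hO⟩)) := h𝔮.trans (iInf_le _ _)
    exact le_principal_iff.1 h1
  refine ⟨𝔮, ?_, ?_, ?_, ?_⟩
  · exact (hev ∅ Set.univ univ_mem).mono fun p hp => ⟨hp.1, hp.2.1⟩
  · intro O hO
    exact (hev ∅ O hO).mono fun p hp => hp.2.2.2.1
  · intro x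
    refine ⟨(hev {x} Set.univ univ_mem).mono fun p hp =>
      hp.2.2.1 x (Finset.mem_singleton_self x), fun O hO => ?_⟩
    exact (hev {x} O hO).mono fun p hp => hp.2.2.2.2.2 x (Finset.mem_singleton_self x)
  · intro O hO
    exact (hev ∅ O hO).mono fun p hp => hp.2.2.2.2.1

end Pool.Agent.Work.MP_0f91f8_co.Dfx
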