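import Pool.Agent.Work.MP_0f91f8_co.Dfx.Final
import Pool.Agent.Work.MP_0f91f8_co.Df.Basic

/-!
Bridge between the block [0f91f8 DF] (`θ : ℚˣ →* E`) and the files `Dfx` (`θ : ℚ → E`): the final
theorem for distal systems on compact Hausdorff spaces from the theorem on the rationals.
-/

set_option linter.unusedSectionVars false

open Filter Topology

namespace Pool.Agent.Work.MP_0f91f8_co.Dfx

open Cge

universe u

/-- the theorem on the rationals for the compact right topological group `E` -/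
def RATM (E : Type u) [Group E] [TopologicalSpace E] [CompactSpace E] [T2Space E] : Prop :=
  ∀ θ : ℚˣ →* E, Df.RT θ → Df.Dst θ → ∀ O ∈ 𝓝 (1 : E),
    ∃ X Y Z : ℚˣ, (X : ℚ) ^ 2 + (Y : ℚ) ^ 2 = (Z : ℚ) ^ 2 ∧ θ X ∈ O ∧ θ Y ∈ O ∧ θ Z ∈ O

section

variable {E : Type u} [Group E] [TopologicalSpace E] [CompactSpace E] [T2Space E] {θ : ℚ → E}

/-- the homomorphism on the units -/
def Ell.hom (h : Ell θ) : ℚˣ →* E where
  toFun g := θ (g : ℚ)
  map_one' := by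
    rw [Units.val_one]
    exact h.one
  map_mul' a b := by
    rw [Units.val_mul]
    exact h.mul _ _ a.ne_zero b.ne_zero

lemma Ell.hom_apply (h : Ell θ) (g : ℚˣ) : h.hom g = θ (g : ℚ) := rfl

lemma Ell.rt (h : Ell θ) : Df.RT h.hom := by
  refine ⟨h.right, fun g => h.left g, ?_⟩
  intro e
  obtain ⟨𝔬, h0, h1⟩ := h.dense e
  refine mem_closure_of_tendsto h1 ?_
  filter_upwards [h0] with r hr
  exact ⟨Units.mk0 r hr, rfl⟩

lemma Ell.QQ_eq (h : Ell θ) (A : Subgroup E) : Df.QQ h.hom A = QA θ (A : Set E) := by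
  ext q
  constructor
  · rintro ⟨𝔬, h0, h1, h2, h3⟩
    have := mem_QA (θ := θ) (A := (A : Set E)) (𝔬 := 𝔬) (k := fun p => (p.1 : ℚ))
      (z := fun p => p.2) (h0.mono fun p hp => ⟨p.1.ne_zero, hp⟩) h1 h2
    rwa [show L 𝔬 (fun p : ℚˣ × E => θ (p.1 : ℚ) * p.2) = q from h3] at this
  · rintro ⟨𝔬, h0, h1, h2, h3⟩
    refine ⟨𝔬.map (fun p => (Df.un p.1, p.2)), ?_, ?_, ?_, ?_⟩
    · rw [Ultrafilter.coe_map, eventually_map]
      exact h0.mono fun p hp => hp.2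
    · rw [L_map]
      refine Eq.trans (L_congr ?_) (L_eq h1)
      filter_upwards [h0] with p hp
      rw [h.hom_apply, Df.un_val hp.1]
    · rw [L_map]
      exact L_eq h2
    · rw [L_map]
      refine Eq.trans (L_congr ?_) (L_eq h3)
      filter_upwards [h0] with p hp
      rw [h.hom_apply, Df.un_val hp.1]

lemma Ell.DD_eq (h : Ell θ) (A : Subgroup E) : Df.DD h.hom A = DD θ A := by
  unfold Df.DD DD
  rw [h.QQ_eq]

end

/-- triples in a distal action on a compact metric space -/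
lemma triples_metric' {X : Type u} [MetricSpace X] [CompactSpace X]
    {T : ℕ → X → X} (h : Dyn T) (hrat : RATM (EG h)) (x₀ : X) {U : Set X} (hU : U ∈ 𝓝 x₀)
    {A : Set ℕ} (hA : Thick A) :
    ∃ x y z : ℕ, 0 < x ∧ 0 < y ∧ 0 < z ∧ x ^ 2 + y ^ 2 = z ^ 2 ∧
      x ∈ A ∧ y ∈ A ∧ z ∈ A ∧ T x x₀ ∈ U ∧ T y x₀ ∈ U ∧ T z x₀ ∈ U := by
  refine transfer h ?_ x₀ hU hA
  intro O hO
  obtain ⟨x, y, z, hxyz, hx, hy, hz⟩ := hrat (th_ell h).hom (th_ell h).rt (by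
    intro C hC hDD
    refine h.fs ⟨hC.closed, ?_⟩ ?_
    · rw [← (th_ell h).QQ_eq]
      exact fun q hq => hC.qq q hq
    · rw [← (th_ell h).DD_eq]
      exact hDD) O hO
  exact ⟨x, y, z, x.ne_zero, y.ne_zero, z.ne_zero, hxyz, hx, hy, hz⟩

/-- the final theorem -/
theorem final_of_rat
    (hrat : ∀ (E : Type) [Group E] [TopologicalSpace E] [CompactSpace E] [T2Space E], RATM E)
    {X : Type u} [TopologicalSpace X] [CompactSpace X]
    [T2Space X] (T : ℕ → X → X) (hTc : ∀ k : ℕ, 0 < k → Continuous (T k))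
    (hTm : ∀ k m : ℕ, 0 < k → 0 < m → ∀ x, T (k * m) x = T k (T m x))
    (hd : ∀ x y z : X, (z, z) ∈ closure {p : X × X | ∃ k : ℕ, 0 < k ∧ p = (T k x, T k y)} →
      x = y)
    (x₀ : X) (n₀ : ℕ) (hn₀ : 0 < n₀) (U : Set X) (hU : U ∈ 𝓝 (T n₀ x₀)) (A : Set ℕ)
    (hA : ∀ S : Finset ℕ, (∀ s ∈ S, 0 < s) → ∃ k : ℕ, 0 < k ∧ ∀ s ∈ S, s * k ∈ A) :
    ∃ x y z : ℕ, 0 < x ∧ 0 < y ∧ 0 < z ∧ x ^ 2 + y ^ 2 = z ^ 2 ∧ x ∈ A ∧ y ∈ A ∧ z ∈ A ∧
      T x x₀ ∈ U ∧ T y x₀ ∈ U ∧ T z x₀ ∈ U := by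
  refine finalD' ?_ T hTc hTm hd x₀ n₀ hn₀ U hU A hA
  intro Y _ _ S hS y V hV B hB
  exact triples_metric' hS (hrat _) y hV hB

end Pool.Agent.Work.MP_0f91f8_co.Dfx
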