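import Mathlib

/-!
The enveloping group of a distal action of the multiplicative semigroup of positive integers.
-/

set_option linter.unusedSectionVars false

open Filter Topology

namespace Pool.Agent.Work.MP_0f91f8_co.Dfx

universe u

/-- A compact right topological group with a central dense image of the nonzero rationals. -/
structure Ell {E : Type u} [Group E] [TopologicalSpace E] (θ : ℚ → E) : Prop where
  right : ∀ x : E, Continuous (fun y : E => y * x)
  mul : ∀ a b : ℚ, a ≠ 0 → b ≠ 0 → θ (a * b) = θ a * θ b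
  central : ∀ (g : ℚ) (x : E), θ g * x = x * θ g
  dense : ∀ x : E, ∃ 𝔬 : Ultrafilter ℚ, (∀ᶠ r in (𝔬 : Filter ℚ), r ≠ 0) ∧
    Tendsto θ (𝔬 : Filter ℚ) (𝓝 x)

/-- the set `Q_A` -/
def QA {E : Type u} [Group E] [TopologicalSpace E] (θ : ℚ → E) (A : Set E) : Set E :=
  {q | ∃ 𝔬 : Ultrafilter (ℚ × E), (∀ᶠ p in (𝔬 : Filter (ℚ × E)), p.1 ≠ 0 ∧ p.2 ∈ A) ∧
    Tendsto (fun p : ℚ × E => θ p.1) (𝔬 : Filter (ℚ × E)) (𝓝 1) ∧
    Tendsto (fun p : ℚ × E => p.2) (𝔬 : Filter (ℚ × E)) (𝓝 1) ∧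
    Tendsto (fun p : ℚ × E => θ p.1 * p.2) (𝔬 : Filter (ℚ × E)) (𝓝 q)}

section

variable {X : Type u} [TopologicalSpace X]

/-- the enveloping semigroup -/
def ES (T : ℕ → X → X) : Set (X → X) := closure {f | ∃ k : ℕ, 0 < k ∧ f = T k}

/-- a distal action of the positive integers by continuous maps -/
structure Dyn (T : ℕ → X → X) : Prop where
  cont : ∀ k : ℕ, 0 < k → Continuous (T k)
  mul : ∀ k m : ℕ, 0 < k → 0 < m → ∀ x, T (k * m) x = T k (T m x)
  inj : ∀ f ∈ ES T, Function.Injective f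

variable {T : ℕ → X → X}

lemma ES_closed : IsClosed (ES T) := isClosed_closure

lemma T_mem {k : ℕ} (hk : 0 < k) : T k ∈ ES T := subset_closure ⟨k, hk, rfl⟩

lemma comp_right_cont (g : X → X) : Continuous (fun f : X → X => f ∘ g) :=
  continuous_pi fun x => continuous_apply (g x)

lemma comp_left_cont {g : X → X} (hg : Continuous g) : Continuous (fun f : X → X => g ∘ f) :=
  continuous_pi fun x => hg.comp (continuous_apply x)

lemma Dyn.comp_mem (h : Dyn T) {f g : X → X} (hf : f ∈ ES T) (hg : g ∈ ES T) :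
    f ∘ g ∈ ES T := by
  have h1 : ∀ k, 0 < k → T k ∘ g ∈ ES T := by
    intro k hk
    have : ES T ⊆ (fun f => T k ∘ f) ⁻¹' ES T := by
      refine closure_minimal ?_ (ES_closed.preimage (comp_left_cont (h.cont k hk)))
      rintro _ ⟨m, hm, rfl⟩
      exact subset_closure ⟨k * m, Nat.mul_pos hk hm, funext fun x => (h.mul k m hk hm x).symm⟩
    exact this hg
  have : ES T ⊆ (fun f => f ∘ g) ⁻¹' ES T := by
    refine closure_minimal ?_ (ES_closed.preimage (comp_right_cont g))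
    rintro _ ⟨k, hk, rfl⟩
    exact h1 k hk
  exact this hf

/-- the enveloping group -/
def EG (_ : Dyn T) : Type u := {f : X → X // f ∈ ES T}

instance (h : Dyn T) : TopologicalSpace (EG h) :=
  inferInstanceAs (TopologicalSpace {f : X → X // f ∈ ES T})

instance [T2Space X] (h : Dyn T) : T2Space (EG h) :=
  inferInstanceAs (T2Space {f : X → X // f ∈ ES T})

instance [CompactSpace X] (h : Dyn T) : CompactSpace (EG h) :=
  isCompact_iff_compactSpace.1 ES_closed.isCompact

instance (h : Dyn T) : Semigroup (EG h) where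
  mul a b := ⟨a.1 ∘ b.1, h.comp_mem a.2 b.2⟩
  mul_assoc _ _ _ := rfl

lemma EG.mul_val {h : Dyn T} (a b : EG h) : (a * b).1 = a.1 ∘ b.1 := rfl

lemma EG.ext {h : Dyn T} {a b : EG h} (hab : ∀ x, a.1 x = b.1 x) : a = b :=
  Subtype.ext (funext hab)

lemma EG.continuous_mul_right {h : Dyn T} (x : EG h) : Continuous (fun y : EG h => y * x) := by
  refine Continuous.subtype_mk ?_ _
  exact (comp_right_cont x.1).comp continuous_subtype_val

lemma EG.idem {h : Dyn T} {e : EG h} (he : e * e = e) : e.1 = id := by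
  funext x
  have h1 : e.1 (e.1 x) = e.1 x := congrFun (congrArg Subtype.val he) x
  exact h.inj e.1 e.2 h1

variable [CompactSpace X] [T2Space X]

lemma Dyn.id_mem (h : Dyn T) : (id : X → X) ∈ ES T := by
  obtain ⟨e, -, he⟩ := exists_idempotent_in_compact_subsemigroup
    (M := EG h) (fun r => EG.continuous_mul_right r) Set.univ
    ⟨⟨T 1, T_mem one_pos⟩, trivial⟩ isCompact_univ (fun _ _ _ _ => trivial)
  rw [← EG.idem he]
  exact e.2

lemma Dyn.exists_inv (h : Dyn T) (a : EG h) : ∃ b : EG h, (b * a).1 = id := by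
  obtain ⟨e, ⟨b, rfl⟩, he⟩ := exists_idempotent_in_compact_subsemigroup
    (M := EG h) (fun r => EG.continuous_mul_right r) (Set.range fun b : EG h => b * a)
    ⟨_, ⟨a, rfl⟩⟩ (isCompact_range (EG.continuous_mul_right a)) (by
      rintro _ ⟨b, rfl⟩ _ ⟨c, rfl⟩
      exact ⟨b * a * c, by simp only [mul_assoc]⟩)
  exact ⟨b, EG.idem he⟩

noncomputable instance (h : Dyn T) : Group (EG h) where
  one := ⟨id, h.id_mem⟩
  inv a := (h.exists_inv a).choose
  one_mul _ := rfl
  mul_one _ := rfl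
  inv_mul_cancel a := Subtype.ext (h.exists_inv a).choose_spec

lemma EG.one_val {h : Dyn T} : (1 : EG h).1 = id := rfl

/-- the class of `T k` -/
def EG.tk (h : Dyn T) (k : ℕ) (hk : 0 < k) : EG h := ⟨T k, T_mem hk⟩

lemma EG.tendsto_iff {h : Dyn T} {Ω : Type*} {g : Ω → EG h} {l : Filter Ω} {x : EG h} :
    Tendsto g l (𝓝 x) ↔ ∀ y : X, Tendsto (fun ω => (g ω).1 y) l (𝓝 (x.1 y)) := by
  have h1 : Tendsto g l (𝓝 x) ↔ Tendsto (fun ω => (g ω).1) l (𝓝 x.1) :=
    tendsto_subtype_rng (p := fun f : X → X => f ∈ ES T)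
  rw [h1, tendsto_pi_nhds]

/-- the image of a positive integer -/
noncomputable def tn (h : Dyn T) (k : ℕ) : EG h := if hk : 0 < k then EG.tk h k hk else 1

/-- the image of a rational -/
noncomputable def th (h : Dyn T) (r : ℚ) : EG h := tn h r.num.natAbs * (tn h r.den)⁻¹

lemma tn_val (h : Dyn T) {k : ℕ} (hk : 0 < k) : (tn h k).1 = T k := by
  unfold tn
  rw [dif_pos hk]
  rfl

lemma tn_mul (h : Dyn T) {k m : ℕ} (hk : 0 < k) (hm : 0 < m) :
    tn h (k * m) = tn h k * tn h m := by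
  apply EG.ext
  intro x
  rw [EG.mul_val, tn_val h hk, tn_val h hm, tn_val h (Nat.mul_pos hk hm)]
  exact h.mul k m hk hm x

lemma tn_zero (h : Dyn T) : tn h 0 = 1 := rfl

lemma tn_one (h : Dyn T) : tn h 1 = 1 := by
  have h1 := tn_mul h one_pos one_pos
  rw [mul_one] at h1
  exact left_eq_mul.1 h1

lemma tn_central (h : Dyn T) (k : ℕ) (x : EG h) : tn h k * x = x * tn h k := by
  rcases Nat.eq_zero_or_pos k with rfl | hk
  · rw [tn_zero, one_mul, mul_one]
  have hcl : IsClosed {f : X → X | T k ∘ f = f ∘ T k} :=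
    isClosed_eq (comp_left_cont (h.cont k hk)) (comp_right_cont (T k))
  have : ES T ⊆ {f : X → X | T k ∘ f = f ∘ T k} := by
    refine closure_minimal ?_ hcl
    rintro _ ⟨m, hm, rfl⟩
    show T k ∘ T m = T m ∘ T k
    funext x
    show T k (T m x) = T m (T k x)
    rw [← h.mul k m hk hm, ← h.mul m k hm hk, mul_comm]
  have h1 : T k ∘ x.1 = x.1 ∘ T k := this x.2
  apply EG.ext
  intro y
  rw [EG.mul_val, EG.mul_val, tn_val h hk]
  exact congrFun h1 y

lemma th_central (h : Dyn T) (r : ℚ) (x : EG h) : th h r * x = x * th h r := by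
  have h1 : Commute (tn h r.num.natAbs) x := tn_central h _ x
  have h2 : Commute (tn h r.den) x := tn_central h _ x
  exact (h1.mul_left h2.inv_left).eq

/-- `θ (a / b)` -/
lemma th_div (h : Dyn T) {r : ℚ} {a b : ℕ} (hb : 0 < b) (hr : r ≠ 0)
    (hab : |r| = (a : ℚ) / b) : th h r = tn h a * (tn h b)⁻¹ := by
  have hr' : |r| = (r.num.natAbs : ℚ) / r.den := by
    have h0 : |r| = |(r.num : ℚ)| / r.den := by
      conv_lhs => rw [← Rat.num_div_den r]
      rw [abs_div, Nat.abs_cast]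
    rw [h0, Nat.cast_natAbs, Int.cast_abs]
  have hn : 0 < r.num.natAbs := Int.natAbs_pos.2 (Rat.num_ne_zero.2 hr)
  have hd : (r.den : ℚ) ≠ 0 := by exact_mod_cast r.den_nz
  have hb' : (b : ℚ) ≠ 0 := by exact_mod_cast hb.ne'
  have e : r.num.natAbs * b = a * r.den := by
    rw [hab, div_eq_div_iff hb' hd] at hr'
    exact_mod_cast hr'.symm
  have ha : 0 < a := by
    rcases Nat.eq_zero_or_pos a with rfl | ha
    · rw [zero_mul] at e
      rcases Nat.mul_eq_zero.1 e with h1 | h1 <;> omega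
    · exact ha
  have h1 : tn h r.num.natAbs * tn h b = tn h a * tn h r.den := by
    rw [← tn_mul h hn hb, ← tn_mul h ha r.den_pos, e]
  unfold th
  rw [mul_inv_eq_iff_eq_mul, mul_assoc, ← tn_central h r.den, ← mul_assoc, ← h1,
    mul_inv_cancel_right]

lemma th_nat (h : Dyn T) {k : ℕ} (hk : 0 < k) : th h (k : ℚ) = tn h k := by
  rw [th_div h (a := k) (b := 1) one_pos (by exact_mod_cast hk.ne') (by simp), tn_one]
  simp

lemma th_mul (h : Dyn T) (r s : ℚ) (hr : r ≠ 0) (hs : s ≠ 0) :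
    th h (r * s) = th h r * th h s := by
  have hr' : |r| = (r.num.natAbs : ℚ) / r.den := by
    have h0 : |r| = |(r.num : ℚ)| / r.den := by
      conv_lhs => rw [← Rat.num_div_den r]
      rw [abs_div, Nat.abs_cast]
    rw [h0, Nat.cast_natAbs, Int.cast_abs]
  have hs' : |s| = (s.num.natAbs : ℚ) / s.den := by
    have h0 : |s| = |(s.num : ℚ)| / s.den := by
      conv_lhs => rw [← Rat.num_div_den s]
      rw [abs_div, Nat.abs_cast]
    rw [h0, Nat.cast_natAbs, Int.cast_abs]
  have hnr : 0 < r.num.natAbs := Int.natAbs_pos.2 (Rat.num_ne_zero.2 hr)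
  have hns : 0 < s.num.natAbs := Int.natAbs_pos.2 (Rat.num_ne_zero.2 hs)
  rw [th_div h (a := r.num.natAbs * s.num.natAbs) (b := r.den * s.den)
    (Nat.mul_pos r.den_pos s.den_pos) (mul_ne_zero hr hs)
    (by rw [abs_mul, hr', hs']; push_cast; rw [div_mul_div_comm]),
    tn_mul h hnr hns, tn_mul h r.den_pos s.den_pos, mul_inv_rev]
  unfold th
  have c1 : Commute (tn h s.num.natAbs) ((tn h r.den)⁻¹) :=
    (show Commute (tn h s.num.natAbs) (tn h r.den) from tn_central h _ _).inv_right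
  have c2 : Commute ((tn h s.den)⁻¹) ((tn h r.den)⁻¹) :=
    (show Commute (tn h s.den) (tn h r.den) from tn_central h _ _).inv_left.inv_right
  rw [c2.eq, mul_assoc, mul_assoc, ← mul_assoc (tn h s.num.natAbs), c1.eq]
  simp only [mul_assoc]

lemma th_dense (h : Dyn T) (x : EG h) : ∃ 𝔬 : Ultrafilter ℚ,
    (∀ᶠ r in (𝔬 : Filter ℚ), r ≠ 0) ∧ Tendsto (th h) (𝔬 : Filter ℚ) (𝓝 x) := by
  have hx : x.1 ∈ closure {f : X → X | ∃ k : ℕ, 0 < k ∧ f = T k} := x.2
  obtain ⟨𝔣, h𝔣, h𝔣x⟩ := mem_closure_iff_ultrafilter.1 hx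
  have h𝔣' : ∀ᶠ f in (𝔣 : Filter (X → X)), ∃ k : ℕ, 0 < k ∧ f = T k := h𝔣
  -- choose the index
  let ind : (X → X) → ℕ := fun f => by
    classical
    exact if hf : ∃ k : ℕ, 0 < k ∧ f = T k then hf.choose else 1
  have hind : ∀ f : X → X, (∃ k : ℕ, 0 < k ∧ f = T k) → 0 < ind f ∧ f = T (ind f) := by
    intro f hf
    have : ind f = hf.choose := by
      simp only [ind]
      rw [dif_pos hf]
    rw [this]
    exact hf.choose_spec
  refine ⟨𝔣.map (fun f => (ind f : ℚ)), ?_, ?_⟩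
  · rw [Ultrafilter.coe_map, eventually_map]
    filter_upwards [h𝔣'] with f hf
    exact_mod_cast (hind f hf).1.ne'
  · rw [Ultrafilter.coe_map, tendsto_map'_iff, EG.tendsto_iff]
    intro y
    have h1 : Tendsto (fun f : X → X => f) (𝔣 : Filter (X → X)) (𝓝 x.1) := h𝔣x
    refine Tendsto.congr' ?_ ((tendsto_pi_nhds.1 h1) y)
    filter_upwards [h𝔣'] with f hf
    simp only [Function.comp_apply]
    rw [th_nat h (hind f hf).1, tn_val h (hind f hf).1]
    exact congrFun (hind f hf).2 y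

theorem th_ell (h : Dyn T) : Ell (th h) :=
  ⟨EG.continuous_mul_right, th_mul h, th_central h, th_dense h⟩

end

end Pool.Agent.Work.MP_0f91f8_co.Dfx
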