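import Pool.Agent.Work.MP_0f91f8_co.Dfx.Brauer

/-!
Calculus in the enveloping group: Lemma J, the derived group `DD A`, the compact topological
group `A / DD A`.
-/

set_option linter.unusedSectionVars false

open Filter Topology

namespace Pool.Agent.Work.MP_0f91f8_co.Dfx

open Cge

universe u v w

variable {E : Type u} [Group E] [TopologicalSpace E] [CompactSpace E] [T2Space E] {θ : ℚ → E}
  {Ω : Type v} {Ω' : Type w}

lemma Ell.L_left (h : Ell θ) (𝔬 : Ultrafilter Ω) (g : ℚ) (x : Ω → E) :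
    L 𝔬 (fun ω => θ g * x ω) = θ g * L 𝔬 x :=
  L_comp (h.left g) 𝔬 x

lemma Ell.L_right (h : Ell θ) (𝔬 : Ultrafilter Ω) (e : E) (x : Ω → E) :
    L 𝔬 (fun ω => x ω * e) = L 𝔬 x * e :=
  L_comp (h.right e) 𝔬 x

/-- a law of rationals with a given limit -/
lemma Ell.exists_law (h : Ell θ) (x : E) : ∃ 𝔬 : Ultrafilter ℚ,
    (∀ᶠ r in (𝔬 : Filter ℚ), r ≠ 0) ∧ L 𝔬 θ = x := by
  obtain ⟨𝔬, h0, h1⟩ := h.dense x
  exact ⟨𝔬, h0, L_eq h1⟩

lemma mem_QA {A : Set E} {𝔬 : Ultrafilter Ω} {k : Ω → ℚ} {z : Ω → E}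
    (h0 : ∀ᶠ ω in (𝔬 : Filter Ω), k ω ≠ 0 ∧ z ω ∈ A) (h1 : L 𝔬 (fun ω => θ (k ω)) = 1)
    (h2 : L 𝔬 z = 1) : L 𝔬 (fun ω => θ (k ω) * z ω) ∈ QA θ A := by
  refine ⟨𝔬.map (fun ω => (k ω, z ω)), ?_, ?_, ?_, ?_⟩
  · rw [Ultrafilter.coe_map, eventually_map]
    exact h0
  · rw [Ultrafilter.coe_map, tendsto_map'_iff]
    exact L_eq_iff.1 h1
  · rw [Ultrafilter.coe_map, tendsto_map'_iff]
    exact L_eq_iff.1 h2
  · rw [Ultrafilter.coe_map, tendsto_map'_iff]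
    exact tendsto_L 𝔬 (fun ω => θ (k ω) * z ω)

lemma QA_mono {A B : Set E} (hAB : A ⊆ B) : QA θ A ⊆ QA θ B := by
  rintro q ⟨𝔬, h1, h2, h3, h4⟩
  exact ⟨𝔬, h1.mono fun p hp => ⟨hp.1, hAB hp.2⟩, h2, h3, h4⟩

/-- Lemma J -/
theorem Ell.J (h : Ell θ) {A : Subgroup E} (hA : IsClosed (A : Set E)) (𝔬 : Ultrafilter Ω)
    (x z : Ω → E) (hz : ∀ᶠ ω in (𝔬 : Filter Ω), z ω ∈ A) :
    ∃ q ∈ QA θ (A : Set E), L 𝔬 (fun ω => x ω * z ω) = L 𝔬 x * q * L 𝔬 z := by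
  obtain ⟨𝔨, hk0, hk⟩ := h.exists_law (L 𝔬 x)⁻¹
  choose 𝔥 hh0 hh using fun ω => h.exists_law (x ω)
  have hz' : L 𝔬 z ∈ A := L_mem hA hz
  -- limits over the composed law
  have key : ∀ f : Ω → E, L (sd 𝔨 (fun _ => sd 𝔬 𝔥)) (fun p => θ (p.1 * p.2.2) * f p.2.1) =
      (L 𝔬 x)⁻¹ * L 𝔬 (fun ω => x ω * f ω) := by
    intro f
    rw [L_sd]
    have e1 : ∀ k : ℚ, k ≠ 0 → L (sd 𝔬 𝔥) (fun p => θ (k * p.2) * f p.1) =
        θ k * L 𝔬 (fun ω => x ω * f ω) := by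
      intro k hk
      rw [L_sd]
      unfold LL
      rw [← h.L_left]
      congr 1
      funext ω
      have e2 : L (𝔥 ω) (fun r => θ (k * r) * f ω) = L (𝔥 ω) (fun r => θ k * (θ r * f ω)) := by
        apply L_congr
        filter_upwards [hh0 ω] with r hr
        rw [h.mul k r hk hr, mul_assoc]
      rw [e2, h.L_left, h.L_right, hh]
    unfold LL
    have e3 : L 𝔨 (fun k => L (sd 𝔬 𝔥) (fun p => θ (k * p.2) * f p.1)) =
        L 𝔨 (fun k => θ k * L 𝔬 (fun ω => x ω * f ω)) := by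
      apply L_congr
      filter_upwards [hk0] with k hk
      exact e1 k hk
    rw [e3, h.L_right, hk]
  have hq := mem_QA (θ := θ) (A := (A : Set E)) (𝔬 := sd 𝔨 (fun _ => sd 𝔬 𝔥))
    (k := fun p => p.1 * p.2.2) (z := fun p => z p.2.1 * (L 𝔬 z)⁻¹) (by
      rw [eventually_sd]
      filter_upwards [hk0] with k hk
      rw [eventually_sd]
      filter_upwards [hz] with ω hω
      filter_upwards [hh0 ω] with r hr
      exact ⟨mul_ne_zero hk hr, A.mul_mem hω (A.inv_mem hz')⟩) (by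
      have := key (fun _ => 1)
      simp only [mul_one] at this
      rw [this, inv_mul_cancel]) (by
      rw [L_sd]
      unfold LL
      have : L (sd 𝔬 𝔥) (fun p => z p.1 * (L 𝔬 z)⁻¹) = 1 := by
        rw [L_sd]
        unfold LL
        simp only [L_const]
        rw [h.L_right, mul_inv_cancel]
      simp only [L_const]
      exact this)
  refine ⟨_, hq, ?_⟩
  rw [key (fun ω => z ω * (L 𝔬 z)⁻¹)]
  have e4 : L 𝔬 (fun ω => x ω * (z ω * (L 𝔬 z)⁻¹)) = L 𝔬 (fun ω => x ω * z ω) * (L 𝔬 z)⁻¹ := by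
    rw [← h.L_right]
    simp only [mul_assoc]
  rw [e4]
  group

/-- admissible subgroups -/
structure Adm (θ : ℚ → E) (A : Subgroup E) : Prop where
  closed : IsClosed (A : Set E)
  qa : QA θ (A : Set E) ⊆ A

lemma Adm.top : Adm θ (⊤ : Subgroup E) := ⟨isClosed_univ, fun _ _ => trivial⟩

/-- left cosets of admissible subgroups are closed -/
lemma Adm.isClosed_coset {A : Subgroup E} (hA : Adm θ A) (h : Ell θ) (x : E) :
    IsClosed {y : E | x⁻¹ * y ∈ A} := by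
  rw [isClosed_iff_ultrafilter]
  intro y 𝔣 hf hy
  obtain ⟨q, hq, e⟩ := h.J hA.closed 𝔣 (fun _ => x) (fun y => x⁻¹ * y) hy
  have e1 : L 𝔣 (fun y : E => x * (x⁻¹ * y)) = y := by
    simp only [mul_inv_cancel_left]
    exact L_eq hf
  rw [e1, L_const, mul_assoc] at e
  show x⁻¹ * y ∈ A
  rw [e, inv_mul_cancel_left]
  exact A.mul_mem (hA.qa hq) (L_mem hA.closed hy)

/-- the derived subgroup -/
def DD (θ : ℚ → E) (A : Subgroup E) : Subgroup E :=
  sInf {B : Subgroup E | IsClosed (B : Set E) ∧ ∀ b ∈ A, ∀ q ∈ QA θ (A : Set E), b⁻¹ * q * b ∈ B}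

lemma DD_closed (A : Subgroup E) : IsClosed (DD θ A : Set E) := by
  rw [DD, Subgroup.coe_sInf]
  exact isClosed_biInter fun B hB => hB.1

lemma conj_mem_DD {A : Subgroup E} {b q : E} (hb : b ∈ A) (hq : q ∈ QA θ (A : Set E)) :
    b⁻¹ * q * b ∈ DD θ A := by
  rw [DD, Subgroup.mem_sInf]
  intro B hB
  exact hB.2 b hb q hq

lemma QA_sub_DD {A : Subgroup E} : QA θ (A : Set E) ⊆ DD θ A := by
  intro q hq
  have := conj_mem_DD (θ := θ) A.one_mem hq
  simpa using this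

lemma DD_le {A B : Subgroup E} (hB : IsClosed (B : Set E))
    (H : ∀ b ∈ A, ∀ q ∈ QA θ (A : Set E), b⁻¹ * q * b ∈ B) : DD θ A ≤ B :=
  sInf_le ⟨hB, H⟩

lemma Adm.DD_le_self {A : Subgroup E} (hA : Adm θ A) : DD θ A ≤ A :=
  DD_le hA.closed fun _ hb _ hq => A.mul_mem (A.mul_mem (A.inv_mem hb) (hA.qa hq)) hb

lemma DD_mono {A B : Subgroup E} (hAB : A ≤ B) : DD θ A ≤ DD θ B :=
  DD_le (DD_closed B) fun _ hb _ hq => conj_mem_DD (hAB hb) (QA_mono hAB hq)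

lemma Adm.DD {A : Subgroup E} (hA : Adm θ A) : Adm θ (DD θ A) :=
  ⟨DD_closed A, (QA_mono hA.DD_le_self).trans QA_sub_DD⟩

/-- any closed group between `DD A` and `A` is admissible -/
lemma Adm.between {A B : Subgroup E} (hB : IsClosed (B : Set E)) (h1 : Dfx.DD θ A ≤ B)
    (h2 : B ≤ A) : Adm θ B :=
  ⟨hB, ((QA_mono h2).trans QA_sub_DD).trans h1⟩

lemma Adm.isClosed_conj {A : Subgroup E} (hA : Adm θ A) (h : Ell θ) (b : E) :
    IsClosed {y : E | b⁻¹ * y * b ∈ A} := by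
  have h1 : IsClosed {y : E | b⁻¹ * y ∈ A} := hA.isClosed_coset h b
  have h2 : {y : E | b⁻¹ * y * b ∈ A} = (fun y : E => y * b) ⁻¹' {y : E | b⁻¹ * y ∈ A} := by
    ext y
    simp only [Set.mem_preimage, Set.mem_ofPred_eq, mul_assoc]
  rw [h2]
  exact h1.preimage (h.right b)

/-- `DD A` is normal in `A` -/
lemma Adm.DD_conj {A : Subgroup E} (hA : Adm θ A) (h : Ell θ) {a d : E} (ha : a ∈ A)
    (hd : d ∈ Dfx.DD θ A) : a⁻¹ * d * a ∈ Dfx.DD θ A := by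
  have h1 : Dfx.DD θ A ≤ (Dfx.DD θ A).comap (MulAut.conj a⁻¹).toMonoidHom := by
    refine DD_le ?_ ?_
    · have := hA.DD.isClosed_conj h a
      convert this using 1
      ext y
      simp
    · intro b hb q hq
      have := conj_mem_DD (θ := θ) (A.mul_mem hb ha) hq
      simp only [Subgroup.mem_comap, MulEquiv.coe_toMonoidHom, MulAut.conj_apply, inv_inv]
      convert this using 1
      group
  have h2 := h1 hd
  simpa [MulAut.conj_apply] using h2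

lemma Adm.DD_conj' {A : Subgroup E} (hA : Adm θ A) (h : Ell θ) {a d : E} (ha : a ∈ A)
    (hd : d ∈ Dfx.DD θ A) : a * d * a⁻¹ ∈ Dfx.DD θ A := by
  have := hA.DD_conj h (A.inv_mem ha) hd
  rwa [inv_inv] at this

/-- conjugates of `Q_A` by arbitrary elements, for normal `A` -/
lemma Adm.conj_QA {A : Subgroup E} (hA : Adm θ A) (hn : A.Normal) (h : Ell θ) (e : E) {q : E}
    (hq : q ∈ QA θ (A : Set E)) : e⁻¹ * q * e ∈ Dfx.DD θ A := by
  obtain ⟨𝔬, h0, h1, h2, h3⟩ := hq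
  obtain ⟨𝔨, hk0, hk⟩ := h.exists_law e⁻¹
  have hz : ∀ᶠ p in (𝔬 : Filter (ℚ × E)), e⁻¹ * p.2 * e ∈ A := by
    filter_upwards [h0] with p hp
    have := hn.conj_mem p.2 hp.2 e⁻¹
    rwa [inv_inv] at this
  -- the limit of the conjugates
  obtain ⟨q₂, hq₂, e2⟩ := h.J hA.closed 𝔬 (fun _ => e) (fun p => e⁻¹ * p.2 * e) hz
  have e3 : L 𝔬 (fun p : ℚ × E => e * (e⁻¹ * p.2 * e)) = e := by
    have : (fun p : ℚ × E => e * (e⁻¹ * p.2 * e)) = fun p => p.2 * e := by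
      funext p
      group
    rw [this, h.L_right, L_eq h2, one_mul]
  have hLz : L 𝔬 (fun p : ℚ × E => e⁻¹ * p.2 * e) = q₂⁻¹ := by
    rw [e3, L_const, mul_assoc] at e2
    have : q₂ * L 𝔬 (fun p : ℚ × E => e⁻¹ * p.2 * e) = 1 := (left_eq_mul.1 e2)
    exact eq_inv_of_mul_eq_one_right this
  -- the composed law
  obtain ⟨q₃, hq₃, e4⟩ := h.J hA.closed (sd 𝔨 (fun _ => 𝔬)) (fun p => θ (p.1 * p.2.1) * e)
    (fun p => e⁻¹ * p.2.2 * e) (by
      rw [eventually_sd]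
      exact Eventually.of_forall fun _ => hz)
  have e5 : L (sd 𝔨 (fun _ => 𝔬)) (fun p : ℚ × (ℚ × E) => θ (p.1 * p.2.1) * e) = 1 := by
    rw [L_sd]
    unfold LL
    have : L 𝔨 (fun k => L 𝔬 (fun p : ℚ × E => θ (k * p.1) * e)) = L 𝔨 (fun k => θ k * e) := by
      apply L_congr
      filter_upwards [hk0] with k hk'
      rw [h.L_right]
      congr 1
      have : L 𝔬 (fun p : ℚ × E => θ (k * p.1)) = L 𝔬 (fun p : ℚ × E => θ k * θ p.1) := by
        apply L_congr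
        filter_upwards [h0] with p hp
        exact h.mul k p.1 hk' hp.1
      rw [this, h.L_left, L_eq h1, mul_one]
    rw [this, h.L_right, hk, inv_mul_cancel]
  have e6 : L (sd 𝔨 (fun _ => 𝔬)) (fun p : ℚ × (ℚ × E) => e⁻¹ * p.2.2 * e) = q₂⁻¹ := by
    rw [L_sd]
    unfold LL
    simp only [hLz, L_const]
  have e7 : L (sd 𝔨 (fun _ => 𝔬))
      (fun p : ℚ × (ℚ × E) => θ (p.1 * p.2.1) * e * (e⁻¹ * p.2.2 * e)) = e⁻¹ * q * e := by
    rw [L_sd]
    unfold LL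
    have : L 𝔨 (fun k => L 𝔬 (fun p : ℚ × E => θ (k * p.1) * e * (e⁻¹ * p.2 * e))) =
        L 𝔨 (fun k => θ k * (q * e)) := by
      apply L_congr
      filter_upwards [hk0] with k hk'
      have e8 : L 𝔬 (fun p : ℚ × E => θ (k * p.1) * e * (e⁻¹ * p.2 * e)) =
          L 𝔬 (fun p : ℚ × E => θ k * (θ p.1 * p.2 * e)) := by
        apply L_congr
        filter_upwards [h0] with p hp
        rw [h.mul k p.1 hk' hp.1]
        group
      rw [e8, h.L_left, h.L_right, L_eq h3]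
    rw [this, h.L_right, hk, mul_assoc]
  rw [e7, e5, e6, one_mul] at e4
  rw [e4]
  exact (Dfx.DD θ A).mul_mem (QA_sub_DD hq₃) ((Dfx.DD θ A).inv_mem (QA_sub_DD hq₂))

/-- `DD A` is normal in `E` if `A` is -/
lemma Adm.DD_normal {A : Subgroup E} (hA : Adm θ A) (hn : A.Normal) (h : Ell θ) :
    (Dfx.DD θ A).Normal := by
  have key : ∀ e d : E, d ∈ Dfx.DD θ A → e⁻¹ * d * e ∈ Dfx.DD θ A := by
    intro e d hd
    have h1 : Dfx.DD θ A ≤ (Dfx.DD θ A).comap (MulAut.conj e⁻¹).toMonoidHom := by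
      refine DD_le ?_ ?_
      · have := hA.DD.isClosed_conj h e
        convert this using 1
        ext y
        simp
      · intro b hb q hq
        have := hA.conj_QA hn h (b * e) hq
        simp only [Subgroup.mem_comap, MulEquiv.coe_toMonoidHom, MulAut.conj_apply, inv_inv]
        convert this using 1
        group
    have h2 := h1 hd
    simpa [MulAut.conj_apply] using h2
  constructor
  intro d hd e
  have := key e⁻¹ d hd
  rwa [inv_inv] at this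

/-- limits of products modulo `DD A` -/
theorem Adm.L_mul {A : Subgroup E} (hA : Adm θ A) (h : Ell θ) (𝔬 : Ultrafilter Ω)
    (x z : Ω → E) (hz : ∀ᶠ ω in (𝔬 : Filter Ω), z ω ∈ A) :
    (L 𝔬 x * L 𝔬 z)⁻¹ * L 𝔬 (fun ω => x ω * z ω) ∈ Dfx.DD θ A := by
  obtain ⟨q, hq, e⟩ := h.J hA.closed 𝔬 x z hz
  rw [e]
  have := conj_mem_DD (θ := θ) (L_mem hA.closed hz : L 𝔬 z ∈ A) hq
  convert this using 1
  group

end Pool.Agent.Work.MP_0f91f8_co.Dfx
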