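import Pool.Agent.Work.MP_0f91f8_co.Dfx.Bridge
import Pool.Agent.Work.MP_0f91f8_co.Df.All

/-!
The theorem for all distal actions.
-/

open Filter Topology

universe u

namespace Pool.Agent.Work.MP_0f91f8_co.Dfx

/-- Pythagorean triples in all distal actions -/
theorem main {X : Type u} [TopologicalSpace X] [CompactSpace X]
    [T2Space X] (T : ℕ → X → X) (hTc : ∀ k : ℕ, 0 < k → Continuous (T k))
    (hTm : ∀ k m : ℕ, 0 < k → 0 < m → ∀ x, T (k * m) x = T k (T m x))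
    (hd : ∀ x y z : X, (z, z) ∈ closure {p : X × X | ∃ k : ℕ, 0 < k ∧ p = (T k x, T k y)} →
      x = y)
    (x₀ : X) (n₀ : ℕ) (hn₀ : 0 < n₀) (U : Set X) (hU : U ∈ 𝓝 (T n₀ x₀)) (A : Set ℕ)
    (hA : ∀ S : Finset ℕ, (∀ s ∈ S, 0 < s) → ∃ k : ℕ, 0 < k ∧ ∀ s ∈ S, s * k ∈ A) :
    ∃ x y z : ℕ, 0 < x ∧ 0 < y ∧ 0 < z ∧ x ^ 2 + y ^ 2 = z ^ 2 ∧ x ∈ A ∧ y ∈ A ∧ z ∈ A ∧
      T x x₀ ∈ U ∧ T y x₀ ∈ U ∧ T z x₀ ∈ U :=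
  final_of_rat (fun E _ _ _ _ θ hθ hD O hO => Df.rat_all hθ hD hO) T hTc hTm hd x₀ n₀ hn₀ U hU A
    hA

end Pool.Agent.Work.MP_0f91f8_co.Dfx
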